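import Pool.Agent.H83.X.T3

/-!
Row SDX of Theorem X (MP_c59857_nt): measurability of the set of the components which decouple.
-/

set_option autoImplicit false

open MeasureTheory ProbabilityTheory Filter Topology Finset
open scoped Nat ENNReal

namespace Pool.Agent.H89.X

open Pool.Agent.H28.LF
open Pool.Agent.H83.X
open Pool.Agent.H24.T2 (Pset)

theorem measX_btY : Measurable btY :=
  measurable_fst.comp (measurable_pi_apply (0 : ℤ))

theorem measX_flag (p : ℕ) : Measurable fun ω : Yi => (ω 0).2.1 p :=
  (measurable_pi_apply p).comp (measurable_fst.comp (measurable_snd.comp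
    (measurable_pi_apply (0 : ℤ))))

theorem measX_flY (p : ℕ) : MeasurableSet (flY p) :=
  (measX_flag p) (measurableSet_singleton true)

theorem measX_shY (n : ℕ) : Measurable (shY^[n]) := shY.measurable.iterate n

theorem measX_kreal (κ : Kernel Yi Yi) {A : Set Yi} (hA : MeasurableSet A) :
    Measurable fun ω => (κ ω).real A :=
  (κ.measurable_coe hA).ennreal_toReal

theorem measX_Wa (R p : ℕ) : Measurable (Wa shY btY R p) := by
  refine measurable_pi_lambda _ fun i => ?_
  exact measX_btY.comp (measX_shY _)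

theorem pf_SDX : T_SDX := by
  intro κ _ R m θ
  have hG : ∀ (p : ℕ) (G : Set (Fin R → Bool × Bool)),
      MeasurableSet {ω : Yi | Wa shY btY R p ω ∈ G} := fun p G =>
    measX_Wa R p (Set.to_countable G).measurableSet
  have he : {ω | DcX shY btY flY R θ (κ ω) m} =
      ⋃ X ∈ {X : Finset ℕ | (X.card : ℝ) ≤ θ * (Pset 2 m).card}, ⋂ p ∈ {p | p ∈ Pset 2 m ∧ p ∉ X},
        ⋂ G : Set (Fin R → Bool × Bool), {ω | |(κ ω).real {ω | Wa shY btY R p ω ∈ G} -
          p * (κ ω).real (flY p ∩ {ω | Wa shY btY R p ω ∈ G})| ≤ θ} := by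
    ext ω
    simp only [DcX, Set.mem_ofPred_eq, Set.mem_iUnion, Set.mem_iInter, exists_prop, and_imp]
  rw [he]
  refine MeasurableSet.biUnion (Set.to_countable _) fun X _ => ?_
  refine MeasurableSet.biInter (Set.to_countable _) fun p _ => ?_
  refine MeasurableSet.iInter fun G => ?_
  have h1 := (measX_kreal κ (hG p G)).sub
    ((measX_kreal κ ((measX_flY p).inter (hG p G))).const_mul (p : ℝ))
  exact measurableSet_le h1.norm measurable_const

end Pool.Agent.H89.X
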