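import Pool.Agent.H83.X.T3

/-!
Row XL1 of Theorem X (MP_c59857_nt): labels on one window.
-/

set_option autoImplicit false

open MeasureTheory ProbabilityTheory Filter Topology Finset
open scoped Nat ENNReal

namespace Pool.Agent.H89.X

open Pool.Agent.H83.X
open Pool.Agent.H83.V (vl fz)

/-! ### the correlation coefficients -/

theorem vl_abs (z : Bool) (b : Bool × Bool) : |((vl z b : ℤ) : ℝ)| ≤ 1 := by
  unfold vl
  split_ifs <;> simp

/-- the summand of `aH` -/
noncomputable def cc (z : Bool) (h m : ℕ) : ℝ := ((fz z m * fz z (m + h) : ℤ) : ℝ)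

theorem cc_abs (z : Bool) (h m : ℕ) : |cc z h m| ≤ 1 := by
  unfold cc
  push_cast
  rw [abs_mul]
  have h1 : |((fz z m : ℤ) : ℝ)| ≤ 1 := vl_abs _ _
  have h2 : |((fz z (m + h) : ℤ) : ℝ)| ≤ 1 := vl_abs _ _
  have h3 := abs_nonneg ((fz z m : ℤ) : ℝ)
  have h4 := abs_nonneg ((fz z (m + h) : ℤ) : ℝ)
  nlinarith

theorem aH_eq (z : Bool) (h H n : ℕ) : aH z h H n = (∑ j ∈ range H, cc z h (n + j + 1)) / H := rfl

theorem aH_abs (z : Bool) (h H n : ℕ) (hH : 0 < H) : |aH z h H n| ≤ 1 := by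
  have hH' : (0 : ℝ) < H := by exact_mod_cast hH
  rw [aH_eq, abs_div, abs_of_pos hH', div_le_one hH']
  refine (Finset.abs_sum_le_sum_abs _ _).trans ?_
  refine (Finset.sum_le_sum fun j _ => cc_abs z h (n + j + 1)).trans ?_
  simp

/-- shifting a window changes the sum by at most twice the shift -/
theorem shift_sum (c : ℕ → ℝ) (hc : ∀ m, |c m| ≤ 1) (H n : ℕ) : ∀ k : ℕ,
    |∑ i ∈ range H, c (n + i + k + 1) - ∑ i ∈ range H, c (n + i + 1)| ≤ 2 * k := by
  intro k
  induction k with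
  | zero => simp
  | succ k ih =>
    have h1 : ∑ i ∈ range H, c (n + i + (k + 1) + 1) - ∑ i ∈ range H, c (n + i + k + 1) =
        c (n + H + k + 1) - c (n + 0 + k + 1) := by
      rw [← Finset.sum_sub_distrib]
      rw [← Finset.sum_range_sub (fun i => c (n + i + k + 1)) H]
      refine Finset.sum_congr rfl fun i _ => ?_
      rw [show n + i + (k + 1) + 1 = n + (i + 1) + k + 1 by ring]
    have h2 := hc (n + H + k + 1)
    have h3 := hc (n + 0 + k + 1)
    push_cast
    rw [abs_le] at *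
    constructor <;> linarith [ih.1, ih.2, h2.1, h2.2, h3.1, h3.2]

theorem mean_aH (z : Bool) (h H K n : ℕ) (hH : 0 < H) (hK : 0 < K) :
    |(∑ i ∈ range H, aH z h K (n + i)) / H - aH z h H n| ≤ 2 * K / H := by
  have hH' : (0 : ℝ) < H := by exact_mod_cast hH
  have hK' : (0 : ℝ) < K := by exact_mod_cast hK
  have h1 : (∑ i ∈ range H, aH z h K (n + i)) / H - aH z h H n =
      (∑ k ∈ range K, (∑ i ∈ range H, cc z h (n + i + k + 1) -
        ∑ i ∈ range H, cc z h (n + i + 1))) / (K * H) := by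
    rw [Finset.sum_sub_distrib, Finset.sum_comm]
    simp only [aH_eq, Finset.sum_const, card_range, nsmul_eq_mul]
    rw [← Finset.sum_div]
    field_simp
  rw [h1, abs_div, abs_of_pos (by positivity : (0 : ℝ) < K * H), div_le_div_iff₀ (by positivity) hH']
  have h2 : |∑ k ∈ range K, (∑ i ∈ range H, cc z h (n + i + k + 1) -
        ∑ i ∈ range H, cc z h (n + i + 1))| ≤ K * (2 * K) := by
    refine (Finset.abs_sum_le_sum_abs _ _).trans ?_
    calc ∑ k ∈ range K, |∑ i ∈ range H, cc z h (n + i + k + 1) -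
            ∑ i ∈ range H, cc z h (n + i + 1)| ≤ ∑ k ∈ range K, (2 * (K : ℝ)) := by
          refine Finset.sum_le_sum fun k hk => ?_
          refine (shift_sum _ (cc_abs z h) H n k).trans ?_
          have : (k : ℝ) ≤ K := by exact_mod_cast (mem_range.1 hk).le
          linarith
      _ = K * (2 * K) := by rw [Finset.sum_const, card_range, nsmul_eq_mul]
  nlinarith

/-! ### the harmonic sum -/

theorem harm (x y : ℕ) (hx : 0 < x) (hxy : x ≤ y) :
    ∑ n ∈ Icc x y, (1 : ℝ) / n ≤ 1 + Real.log ((y : ℝ) / x) := by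
  have hx' : (0 : ℝ) < x := by exact_mod_cast hx
  induction y, hxy using Nat.le_induction with
  | base =>
    rw [Icc_self, sum_singleton, div_self hx'.ne', Real.log_one, add_zero, div_le_one hx']
    exact_mod_cast hx
  | succ y hxy ih =>
    rw [Finset.sum_Icc_succ_top (by omega), add_comm]
    have hy : (0 : ℝ) < y := by exact_mod_cast (lt_of_lt_of_le hx hxy)
    have h1 : (1 : ℝ) / ((y + 1 : ℕ) : ℝ) ≤ Real.log (((y + 1 : ℕ) : ℝ) / y) := by
      have h2 := Real.one_sub_inv_le_log_of_pos (show (0 : ℝ) < ((y + 1 : ℕ) : ℝ) / y by positivity)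
      refine le_trans (le_of_eq ?_) h2
      rw [inv_div]
      push_cast
      field_simp
      ring
    have h3 : Real.log (((y + 1 : ℕ) : ℝ) / x) =
        Real.log (((y + 1 : ℕ) : ℝ) / y) + Real.log ((y : ℝ) / x) := by
      rw [← Real.log_mul (by positivity) (by positivity)]
      congr 1
      field_simp
    rw [h3]
    linarith

/-! ### digits -/

theorem vR_bounds (R : ℕ) (v : ℝ) (hR : 0 < R) (h0 : 0 ≤ v) (h1 : v ≤ 1) :
    vR R (fun s => decide ((s : ℝ) + 1 ≤ R * v)) ≤ v ∧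
      v - 1 / R ≤ vR R (fun s => decide ((s : ℝ) + 1 ≤ R * v)) := by
  have hR' : (0 : ℝ) < R := by exact_mod_cast hR
  have hv0 : 0 ≤ R * v := by positivity
  have h2 : (∑ s ∈ range R, if (decide ((s : ℝ) + 1 ≤ R * v)) = true then (1 : ℝ) else 0) =
      ⌊R * v⌋₊ := by
    rw [← Finset.sum_filter, Finset.sum_const, nsmul_eq_mul, mul_one]
    congr 1
    have h3 : (range R).filter (fun s : ℕ => decide ((s : ℝ) + 1 ≤ R * v) = true) =
        range ⌊R * v⌋₊ := by
      ext s
      rw [mem_filter, mem_range, mem_range, decide_eq_true_eq]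
      have h4 : ((s : ℝ) + 1 ≤ R * v) ↔ s < ⌊R * v⌋₊ := by
        rw [← Nat.succ_le_iff, Nat.le_floor_iff hv0]
        push_cast
        rfl
      rw [h4]
      refine ⟨fun h => h.2, fun h => ⟨?_, h⟩⟩
      refine lt_of_lt_of_le h ?_
      have h5 : ⌊R * v⌋₊ ≤ ⌊(R : ℝ)⌋₊ := Nat.floor_le_floor (by nlinarith)
      rwa [Nat.floor_natCast] at h5
    rw [h3, card_range]
  unfold vR
  rw [h2]
  have h6 := Nat.floor_le hv0
  have h7 := Nat.lt_floor_add_one (R * v)
  constructor
  · rw [div_le_iff₀ hR']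
    linarith
  · rw [le_div_iff₀ hR', sub_mul, one_div, inv_mul_cancel₀ hR'.ne']
    linarith

/-! ### the convex function -/

theorem convex_facts (Φ : ℝ → ℝ) (hΦ : ConvexOn ℝ Set.univ Φ) :
    ∃ B₀ Lam : ℝ, 0 ≤ B₀ ∧ 0 ≤ Lam ∧ (∀ t, |t| ≤ 1 → |Φ t| ≤ B₀) ∧
      ∀ s t, |s| ≤ 1 → |t| ≤ 2 → |Φ s - Φ t| ≤ Lam * |s - t| := by
  have hc : Continuous Φ := hΦ.locallyLipschitz.continuous
  obtain ⟨M, hM⟩ := (isCompact_Icc (a := (-4 : ℝ)) (b := 4)).exists_bound_of_continuousOn
    hc.continuousOn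
  have hM' : ∀ a, dist a (0 : ℝ) < 4 → |Φ a| ≤ M := by
    intro a ha
    rw [dist_zero_right, Real.norm_eq_abs, abs_lt] at ha
    exact hM a ⟨ha.1.le, ha.2.le⟩
  have hM0 : 0 ≤ M := (abs_nonneg _).trans (hM' 0 (by simp))
  have hl := ConvexOn.lipschitzOnWith_of_abs_le
    (hΦ.subset (Set.subset_univ _) (convex_ball (0 : ℝ) 4)) (ε := 1) one_pos hM'
  refine ⟨M, ((2 * M / 1).toNNReal : ℝ), hM0, NNReal.coe_nonneg _, fun t ht => hM' t ?_, ?_⟩
  · rw [dist_zero_right, Real.norm_eq_abs]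
    linarith
  · intro s t hs ht
    have := hl.dist_le_mul s (by rw [Metric.mem_ball, dist_zero_right, Real.norm_eq_abs]; linarith)
      t (by rw [Metric.mem_ball, dist_zero_right, Real.norm_eq_abs]; linarith)
    rwa [Real.dist_eq, Real.dist_eq] at this

theorem jensen_mean (Φ : ℝ → ℝ) (hΦ : ConvexOn ℝ Set.univ Φ) (H : ℕ) (hH : 0 < H) (a : ℕ → ℝ) :
    Φ ((∑ i ∈ range H, a i) / H) ≤ (∑ i ∈ range H, Φ (a i)) / H := by
  have hH' : (0 : ℝ) < H := by exact_mod_cast hH
  have h1 := hΦ.map_sum_le (t := range H) (w := fun _ => 1 / (H : ℝ)) (p := a)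
    (fun _ _ => by positivity) (by rw [Finset.sum_const, card_range, nsmul_eq_mul]; field_simp)
    (fun _ _ => Set.mem_univ _)
  simp only [smul_eq_mul] at h1
  rw [← Finset.mul_sum, ← Finset.mul_sum] at h1
  rw [div_eq_inv_mul, div_eq_inv_mul, ← one_div]
  exact h1

theorem pf_XL1 (h : T_XWT) : T_XL1 := by
  intro z hh Φ δ hΦ hδ0 hδ1
  obtain ⟨B₀, Lam, hB₀, hLam, hb, hlip⟩ := convex_facts Φ hΦ
  set c := cU Φ δ with hc
  set B' : ℝ := B₀ + |c| with hB'
  have hB'0 : 0 ≤ B' := by rw [hB']; positivity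
  refine ⟨100 * (B' + Lam + 1), by positivity, ?_⟩
  intro ε R H x y S hε hR hH hx hxy hS hN
  have hH' : (0 : ℝ) < H := by exact_mod_cast hH
  have hR' : (0 : ℝ) < R := by exact_mod_cast hR
  obtain ⟨v, hv01, hvb, hvm, hvs, hvp⟩ := h H x y S hH hx hxy hS
  have hvR : ∀ n, vR R (fun s => decide ((s : ℝ) + 1 ≤ R * v n)) ≤ v n ∧
      v n - 1 / R ≤ vR R (fun s => decide ((s : ℝ) + 1 ≤ R * v n)) :=
    fun n => vR_bounds R (v n) hR (hv01 n).1 (hv01 n).2
  have hgb : ∀ K, 0 < K → ∀ n, |Φ (aH z hh K n) - c| ≤ B' := by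
    intro K hK n
    have h1 := hb _ (aH_abs z hh K n hK)
    have h2 := abs_sub (Φ (aH z hh K n)) c
    rw [hB']
    linarith
  have hharm := harm x y hx hxy
  have hpos : ∀ n ∈ Icc x y, (0 : ℝ) < n := by
    intro n hn
    exact_mod_cast lt_of_lt_of_le hx (mem_Icc.1 hn).1
  refine ⟨fun n s => decide ((s : ℝ) + 1 ≤ R * v n), ?_, ?_, ?_⟩
  · intro n hn
    funext s
    simp only []
    rw [hvb n hn]
  · intro K hK hKH
    have hK' : (0 : ℝ) < K := by exact_mod_cast hK
    -- step 1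
    have s1 : ε / 2 * ∑ N ∈ S, (1 : ℝ) / N ≤
        (∑ N ∈ S, (1 : ℝ) / N * ((∑ n ∈ Icc 1 N, (Φ (aH z hh H n) - c)) / N)) / 2 := by
      have h1 : ε * ∑ N ∈ S, (1 : ℝ) / N ≤
          ∑ N ∈ S, (1 : ℝ) / N * ((∑ n ∈ Icc 1 N, (Φ (aH z hh H n) - c)) / N) := by
        rw [Finset.mul_sum]
        refine Finset.sum_le_sum fun N hNS => ?_
        have hN0 : (0 : ℝ) < N := hpos N (hS hNS)
        have h2 : (∑ n ∈ Icc 1 N, (Φ (aH z hh H n) - c)) / N = mH z hh Φ H N - c := by
          unfold mH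
          rw [Finset.sum_sub_distrib, Finset.sum_const, Nat.card_Icc, nsmul_eq_mul]
          rw [show N + 1 - 1 = N by omega]
          field_simp
        rw [h2, mul_comm ε]
        apply mul_le_mul_of_nonneg_left _ (by positivity)
        have := hN N hNS
        linarith
      linarith
    have s2 := hvm B' (fun n => Φ (aH z hh H n) - c) hB'0 (hgb H hH)
    -- step 2: Jensen
    have s3 : ∑ n ∈ Icc x y, v n * (Φ (aH z hh H n) - c) / n ≤
        (∑ i ∈ range H, ∑ n ∈ Icc x y, v n * (Φ (aH z hh K (n + i)) - c) / n) / H +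
          Lam * (2 * K / H) * ∑ n ∈ Icc x y, (1 : ℝ) / n := by
      rw [Finset.sum_comm, Finset.sum_div, Finset.mul_sum, ← Finset.sum_add_distrib]
      refine Finset.sum_le_sum fun n hn => ?_
      have hn0 := hpos n hn
      have h1 := mean_aH z hh H K n hH hK
      have hm1 := aH_abs z hh H n hH
      have hm2 : |(∑ i ∈ range H, aH z hh K (n + i)) / H| ≤ 2 := by
        rw [abs_div, abs_of_pos hH', div_le_iff₀ hH']
        refine (Finset.abs_sum_le_sum_abs _ _).trans ?_
        refine (Finset.sum_le_sum fun j _ => aH_abs z hh K (n + j) hK).trans ?_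
        simp
        linarith
      have h2 := hlip _ _ hm1 hm2
      have h3 := jensen_mean Φ hΦ H hH (fun i => aH z hh K (n + i))
      have h4 : |aH z hh H n - (∑ i ∈ range H, aH z hh K (n + i)) / H| ≤ 2 * K / H := by
        rw [abs_sub_comm]; exact h1
      have h5 : Φ (aH z hh H n) ≤ (∑ i ∈ range H, Φ (aH z hh K (n + i))) / H +
          Lam * (2 * K / H) := by
        have h6 := (abs_le.1 h2).2
        have h7 := mul_le_mul_of_nonneg_left h4 hLam
        linarith
      have h8 : Φ (aH z hh H n) - c ≤ (∑ i ∈ range H, (Φ (aH z hh K (n + i)) - c)) / H +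
          Lam * (2 * K / H) := by
        rw [Finset.sum_sub_distrib, Finset.sum_const, card_range, nsmul_eq_mul, sub_div,
          mul_div_cancel_left₀ _ hH'.ne']
        linarith
      have h9 : v n * (Φ (aH z hh H n) - c) / n ≤
          v n * ((∑ i ∈ range H, (Φ (aH z hh K (n + i)) - c)) / H + Lam * (2 * K / H)) / n := by
        apply div_le_div_of_nonneg_right _ hn0.le
        exact mul_le_mul_of_nonneg_left h8 (hv01 n).1
      refine h9.trans ?_
      have h10 : (∑ i ∈ range H, v n * (Φ (aH z hh K (n + i)) - c) / n) / H =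
          v n * ((∑ i ∈ range H, (Φ (aH z hh K (n + i)) - c)) / H) / n := by
        rw [← Finset.sum_div, ← Finset.mul_sum]
        field_simp
      rw [h10, mul_add, add_div]
      have h11 : v n * (Lam * (2 * K / H)) / n ≤ Lam * (2 * K / H) * (1 / n) := by
        rw [mul_one_div]
        apply div_le_div_of_nonneg_right _ hn0.le
        have : 0 ≤ Lam * (2 * K / H) := by positivity
        nlinarith [(hv01 n).2]
      linarith
    -- step 3: shifts
    have s4 : (∑ i ∈ range H, ∑ n ∈ Icc x y, v n * (Φ (aH z hh K (n + i)) - c) / n) / H ≤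
        ∑ n ∈ Icc x y, v n * (Φ (aH z hh K n) - c) / n + 10 * B' * (H + 1) := by
      rw [div_le_iff₀ hH']
      calc ∑ i ∈ range H, ∑ n ∈ Icc x y, v n * (Φ (aH z hh K (n + i)) - c) / n
          ≤ ∑ i ∈ range H, (∑ n ∈ Icc x y, v n * (Φ (aH z hh K n) - c) / n +
              10 * B' * (H + 1)) := by
            refine Finset.sum_le_sum fun i hi => ?_
            have := hvs B' (fun n => Φ (aH z hh K n) - c) i hB'0 (hgb K hK) (mem_range.1 hi).le
            have h1 := (abs_le.1 this).2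
            linarith
        _ = _ := by rw [Finset.sum_const, card_range, nsmul_eq_mul]; ring
    -- step 4: digits
    have s5 : ∑ n ∈ Icc x y, v n * (Φ (aH z hh K n) - c) / n ≤
        ∑ n ∈ Icc x y, vR R (fun s => decide ((s : ℝ) + 1 ≤ R * v n)) *
          (Φ (aH z hh K n) - c) / n + B' * (1 / R) * ∑ n ∈ Icc x y, (1 : ℝ) / n := by
      rw [Finset.mul_sum, ← Finset.sum_add_distrib]
      refine Finset.sum_le_sum fun n hn => ?_
      have hn0 := hpos n hn
      rw [mul_one_div, ← add_div]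
      apply div_le_div_of_nonneg_right _ hn0.le
      obtain ⟨h1, h2⟩ := hvR n
      have h3 := abs_le.1 (hgb K hK n)
      have h4 : (v n - vR R (fun s => decide ((s : ℝ) + 1 ≤ R * v n))) * (Φ (aH z hh K n) - c) ≤
          (1 / R) * B' := by
        have h5 : 0 ≤ v n - vR R (fun s => decide ((s : ℝ) + 1 ≤ R * v n)) := by linarith
        have h6 : v n - vR R (fun s => decide ((s : ℝ) + 1 ≤ R * v n)) ≤ 1 / R := by linarith
        calc _ ≤ (v n - vR R (fun s => decide ((s : ℝ) + 1 ≤ R * v n))) * B' :=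
              mul_le_mul_of_nonneg_left h3.2 h5
          _ ≤ (1 / R) * B' := mul_le_mul_of_nonneg_right h6 hB'0
      linarith
    have s6 := (abs_le.1 s2).2
    have hlog : 0 ≤ 1 + Real.log ((y : ℝ) / x) := by
      refine le_trans ?_ hharm
      exact Finset.sum_nonneg fun n _ => by positivity
    have s7 : Lam * (2 * K / H) * ∑ n ∈ Icc x y, (1 : ℝ) / n ≤
        Lam * (2 * K / H) * (1 + Real.log ((y : ℝ) / x)) :=
      mul_le_mul_of_nonneg_left hharm (by positivity)
    have s8 : B' * (1 / R) * ∑ n ∈ Icc x y, (1 : ℝ) / n ≤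
        B' * (1 / R) * (1 + Real.log ((y : ℝ) / x)) :=
      mul_le_mul_of_nonneg_left hharm (by positivity)
    have hK1 : (1 : ℝ) ≤ K := by exact_mod_cast hK
    have e1 : 20 * B' * (H + 1) ≤ 100 * (B' + Lam + 1) * (H + K) := by
      have : B' * ((H : ℝ) + 1) ≤ (B' + Lam + 1) * (H + K) := by
        apply mul_le_mul (by linarith) (by linarith) (by positivity) (by positivity)
      have h2 : 0 ≤ (B' + Lam + 1) * ((H : ℝ) + K) := by positivity
      nlinarith
    have e2 : Lam * (2 * K / H) * (1 + Real.log ((y : ℝ) / x)) +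
        B' * (1 / R) * (1 + Real.log ((y : ℝ) / x)) ≤
        100 * (B' + Lam + 1) * ((1 / R + (K : ℝ) / H) * (1 + Real.log ((y : ℝ) / x))) := by
      have h1 : Lam * (2 * K / H) + B' * (1 / R) ≤
          100 * (B' + Lam + 1) * (1 / R + (K : ℝ) / H) := by
        have h2 : (0 : ℝ) ≤ (K : ℝ) / H := by positivity
        have h3 : (0 : ℝ) ≤ 1 / R := by positivity
        have h4 : Lam * (2 * K / H) = 2 * (Lam * (K / H)) := by ring
        rw [h4]
        have h5 := mul_nonneg hLam h2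
        have h6 := mul_nonneg hB'0 h3
        have h7 := mul_nonneg hLam h3
        have h8 := mul_nonneg hB'0 h2
        nlinarith
      have h9 := mul_le_mul_of_nonneg_right h1 hlog
      linarith
    have e3 : 100 * (B' + Lam + 1) * ((1 / R + (K : ℝ) / H) * (1 + Real.log ((y : ℝ) / x)) + H + K) =
        100 * (B' + Lam + 1) * ((1 / R + (K : ℝ) / H) * (1 + Real.log ((y : ℝ) / x))) +
        100 * (B' + Lam + 1) * (H + K) := by ring
    rw [e3]
    linarith
  · intro p p' n hp hpp' hny hpx hn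
    have h1 := hvp R p p' n hR hp hpp' hny hpx hn
    have hp' : (0 : ℝ) < p := by exact_mod_cast hp
    have hp'' : (0 : ℝ) < p' := by exact_mod_cast (hp.trans hpp')
    have h2 := mul_le_mul_of_nonneg_left (hvR (n / p)).1 hp'.le
    have h3 := mul_le_mul_of_nonneg_left (hvR (n / p')).2 hp''.le
    have h4 : (p' : ℝ) * (v (n / p') - 1 / R) = p' * v (n / p') - p' / R := by
      rw [mul_sub, mul_one_div]
    rw [h4] at h3
    have h5 : 2 * (p' : ℝ) / R = p' / R + p' / R := by ring
    rw [h5]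
    linarith

end Pool.Agent.H89.X
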